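import Pool.Agent.H289KG.Group

namespace Pool.Agent.H289KG

open Monoid

open Classical in
/-- the Fox derivative with respect to `b_1` -/
theorem exists_fox : ∃ δ : KuroshGroup → KuroshGroup → ZMod 2,
    (∀ g h x, δ (g * h) x = δ g x + δ h (g⁻¹ * x)) ∧ (∀ g x, δ (σ g) x = 0) ∧
    (∀ x, δ (bb 0) x = if x = 1 then 1 else 0) := by
  classical
  let fE : KuroshGroup →* Function.End (KuroshGroup → ZMod 2) :=
    { toFun := fun g φ x => φ ((σ g)⁻¹ * x)
      map_one' := by
        funext φ x
        show φ ((σ 1)⁻¹ * x) = φ x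
        simp
      map_mul' := by
        intro g h
        funext φ x
        show φ ((σ (g * h))⁻¹ * x) = φ ((σ h)⁻¹ * ((σ g)⁻¹ * x))
        rw [map_mul]
        congr 1
        group }
  let e0 : KuroshGroup → ZMod 2 := fun x => if x = 1 then 1 else 0
  let tp : Equiv.Perm (KuroshGroup → ZMod 2) :=
    { toFun := fun φ x => φ ((bb 0)⁻¹ * x) + e0 x
      invFun := fun φ x => φ (bb 0 * x) - e0 (bb 0 * x)
      left_inv := by intro φ; funext x; simp
      right_inv := by intro φ; funext x; simp }
  obtain ⟨F, hF1, hF2⟩ := isFreeExt.up _ fE.toHomPerm tp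
  have Fσ : ∀ a φ x, F (σ a) φ x = φ ((σ a)⁻¹ * x) := by
    intro a φ x
    have : F (σ a) = fE.toHomPerm a := by rw [← hF1]; rfl
    rw [this]; rfl
  have Ft : ∀ φ x, F (bb 0) φ x = φ ((bb 0)⁻¹ * x) + e0 x := by
    intro φ x; rw [hF2]; rfl
  have key : ∀ g, ∀ φ x, F g φ x = φ (g⁻¹ * x) + F g 0 x := by
    refine isFreeExt.induct ?_ ?_ ?_ ?_
    · intro a φ x
      rw [Fσ, Fσ]; simp
    · intro φ x
      rw [Ft, Ft]; simp
    · intro g h hg hh φ x
      rw [map_mul, Equiv.Perm.mul_apply, Equiv.Perm.mul_apply, hg, hh, hg (F h 0), mul_inv_rev,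
        mul_assoc, add_assoc]
    · intro g hg φ x
      have h1 : F g (F g⁻¹ φ) = φ := by
        rw [← Equiv.Perm.mul_apply, ← map_mul, mul_inv_cancel, map_one]; rfl
      have h2 : F g (F g⁻¹ 0) = 0 := by
        rw [← Equiv.Perm.mul_apply, ← map_mul, mul_inv_cancel, map_one]; rfl
      have h3 := congrFun h1 (g * x)
      have h4 := congrFun h2 (g * x)
      rw [hg, inv_mul_cancel_left] at h3 h4
      rw [inv_inv, ← h3]
      simp only [Pi.zero_apply] at h4
      have h5 : F g⁻¹ 0 x = - F g 0 (g * x) := eq_neg_of_add_eq_zero_left h4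
      rw [h5]
      ring
  refine ⟨fun g x => F g 0 x, ?_, ?_, ?_⟩
  · intro g h x
    show F (g * h) 0 x = F g 0 x + F h 0 (g⁻¹ * x)
    rw [map_mul, Equiv.Perm.mul_apply, key g (F h 0) x, add_comm]
  · intro g x
    show F (σ g) 0 x = 0
    rw [Fσ]; rfl
  · intro x
    show F (bb 0) 0 x = _
    rw [Ft]; simp [e0]

theorem zmod2_add_self (x : ZMod 2) : x + x = 0 := CharTwo.add_self_eq_zero x

/-- Key lemma: a set which is almost invariant and `a_0`-invariant is invariant under `a_1`
and `b_1`. -/
theorem key_lemma (D : Set KuroshGroup) (hD : D ∈ AlmostInvariant KuroshGroup)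
    (h0 : ∀ x, x ∈ D ↔ x * aa 0 ∈ D) :
    (∀ x, x ∈ D ↔ x * aa 1 ∈ D) ∧ (∀ x, x ∈ D ↔ x * bb 0 ∈ D) := by
  classical
  obtain ⟨δ, hδm, hδσ, hδt⟩ := exists_fox
  set a := aa 1 with ha
  set b := bb 0 with hb
  have ha0 : aa 0 = a * b * a⁻¹ * b⁻¹ := (rel 0).symm
  let f : KuroshGroup → ZMod 2 := fun x => if x ∈ D then 1 else 0
  have hf0 : ∀ x, f (x * (a * b * a⁻¹ * b⁻¹)) = f x := by
    intro x
    have := h0 x
    rw [ha0] at this
    simp only [f, this]
  have hfin : ∀ g : KuroshGroup, {x | f x + f (x * g) ≠ 0}.Finite := by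
    intro g
    refine (hD g⁻¹).subset ?_
    intro x hx
    simp only [Set.image_mul_right, inv_inv, Set.mem_symmDiff, Set.mem_preimage]
    have hne : ¬ (x ∈ D ↔ x * g ∈ D) := by
      intro h
      apply hx
      show (if x ∈ D then (1 : ZMod 2) else 0) + (if x * g ∈ D then 1 else 0) = 0
      rw [if_congr h rfl rfl]
      exact zmod2_add_self _
    tauto
  let u : KuroshGroup → ZMod 2 := fun x => f x + f (x * a)
  let v : KuroshGroup → ZMod 2 := fun x => f x + f (x * b)
  have hu : u.support.Finite := hfin a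
  have hv : v.support.Finite := hfin b
  have hE : ∀ h, u h + v (h * a) + u (h * (a * b * a⁻¹)) + v (h * (a * b * a⁻¹ * b⁻¹)) = 0 := by
    intro h
    have e1 : h * a * b = h * (a * b * a⁻¹) * a := by group
    have e2 : h * (a * b * a⁻¹ * b⁻¹) * b = h * (a * b * a⁻¹) := by group
    simp only [u, v, hf0, e1, e2]
    generalize f h = p1
    generalize f (h * a) = p2
    generalize f (h * (a * b * a⁻¹)) = p3
    generalize f (h * (a * b * a⁻¹) * a) = p4
    revert p1 p2 p3 p4
    decide
  have hδa : ∀ x, δ a x = 0 := by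
    intro x
    have : a = σ (aa 0) := (σ_aa 0).symm
    rw [this, hδσ]
  -- u = 0
  have hsupp : ∀ (w : KuroshGroup → ZMod 2) (hw : w.support.Finite) (c : KuroshGroup)
      (φ : KuroshGroup → ZMod 2), (Function.support fun h => w (h * c) * φ h).Finite := by
    intro w hw c φ
    refine (hw.preimage (mul_left_injective c).injOn).subset ?_
    intro h hh
    simp only [Function.mem_support] at hh
    exact left_ne_zero_of_mul hh
  have hu0 : ∀ y, u y = 0 := by
    intro y
    set x := y * a with hx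
    have hsum : ∑ᶠ h, (u h + v (h * a) + u (h * (a * b * a⁻¹)) + v (h * (a * b * a⁻¹ * b⁻¹))) *
        δ (h * (a * b)) x = 0 := by
      rw [finsum_congr (g := fun _ => (0 : ZMod 2)) (fun h => by rw [hE, zero_mul])]
      exact finsum_zero
    have s1 := hsupp u hu 1 (fun h => δ (h * (a * b)) x)
    simp only [mul_one] at s1
    have s2 := hsupp v hv a (fun h => δ (h * (a * b)) x)
    have s3 := hsupp u hu (a * b * a⁻¹) (fun h => δ (h * (a * b)) x)
    have s4 := hsupp v hv (a * b * a⁻¹ * b⁻¹) (fun h => δ (h * (a * b)) x)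
    have s12 : (Function.support fun h => u h * δ (h * (a * b)) x +
        v (h * a) * δ (h * (a * b)) x).Finite := (s1.union s2).subset (Function.support_add _ _)
    have s123 : (Function.support fun h => u h * δ (h * (a * b)) x +
        v (h * a) * δ (h * (a * b)) x +
        u (h * (a * b * a⁻¹)) * δ (h * (a * b)) x).Finite :=
      (s12.union s3).subset (Function.support_add _ _)
    simp only [add_mul] at hsum
    rw [finsum_add_distrib s123 s4, finsum_add_distrib s12 s3, finsum_add_distrib s1 s2] at hsum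
    have r2 : ∑ᶠ h, v (h * a) * δ (h * (a * b)) x = ∑ᶠ h, v h * δ (h * b) x := by
      rw [← finsum_comp_equiv (Equiv.mulRight a) (f := fun h => v h * δ (h * b) x)]
      refine finsum_congr (fun h => ?_)
      show _ = v (h * a) * δ (h * a * b) x
      rw [mul_assoc h a b]
    have r3 : ∑ᶠ h, u (h * (a * b * a⁻¹)) * δ (h * (a * b)) x = ∑ᶠ h, u h * δ (h * a) x := by
      rw [← finsum_comp_equiv (Equiv.mulRight (a * b * a⁻¹)) (f := fun h => u h * δ (h * a) x)]
      refine finsum_congr (fun h => ?_)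
      show _ = u (h * (a * b * a⁻¹)) * δ (h * (a * b * a⁻¹) * a) x
      congr 2
      group
    have r4 : ∑ᶠ h, v (h * (a * b * a⁻¹ * b⁻¹)) * δ (h * (a * b)) x =
        ∑ᶠ h, v h * δ (h * b * a) x := by
      rw [← finsum_comp_equiv (Equiv.mulRight (a * b * a⁻¹ * b⁻¹))
        (f := fun h => v h * δ (h * b * a) x)]
      refine finsum_congr (fun h => ?_)
      show _ = v (h * (a * b * a⁻¹ * b⁻¹)) * δ (h * (a * b * a⁻¹ * b⁻¹) * b * a) x
      congr 2
      group
    have r1 : ∑ᶠ h, u h * δ (h * (a * b)) x = u y + ∑ᶠ h, u h * δ (h * a) x := by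
      have t1 := hsupp u hu 1 (fun h => if h = y then 1 else 0)
      have t2 := hsupp u hu 1 (fun h => δ (h * a) x)
      simp only [mul_one] at t1 t2
      have : u y = ∑ᶠ h, u h * (if h = y then 1 else 0) := by
        rw [finsum_eq_single _ y (by intro z hz; simp [hz])]
        simp
      rw [this, ← finsum_add_distrib t1 t2]
      refine finsum_congr (fun h => ?_)
      rw [← mul_assoc, hδm (h * a) b x, hδt, ← mul_add, add_comm]
      congr 3
      apply propext
      rw [hx]
      constructor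
      · intro h1
        have h2 : y * a = h * a := by
          rw [← mul_one (h * a), ← h1]; group
        exact (mul_right_cancel h2).symm
      · rintro rfl
        group
    have r4' : ∑ᶠ h, v h * δ (h * b * a) x = ∑ᶠ h, v h * δ (h * b) x := by
      refine finsum_congr (fun h => ?_)
      rw [hδm (h * b) a x, hδa, add_zero]
    rw [r1, r2, r3, r4, r4'] at hsum
    generalize (∑ᶠ h, u h * δ (h * a) x) = p1 at hsum
    generalize (∑ᶠ h, v h * δ (h * b) x) = p2 at hsum
    generalize u y = p3 at hsum ⊢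
    revert p1 p2 p3
    decide
  have hv1 : ∀ h, v h = v (h * (b * a⁻¹ * b⁻¹)) := by
    intro h
    have := hE (h * a⁻¹)
    rw [hu0, hu0, inv_mul_cancel_right, zero_add, add_zero] at this
    have e1 : h * a⁻¹ * (a * b * a⁻¹ * b⁻¹) = h * (b * a⁻¹ * b⁻¹) := by group
    rw [e1] at this
    have h2 := eq_neg_of_add_eq_zero_left this
    rw [h2, ZMod.neg_eq_self_mod_two]
  have hv0 : ∀ h, v h = 0 := by
    intro h
    by_contra hne
    have h1 : ∀ n : ℕ, v (h * (b * a⁻¹ * b⁻¹) ^ n) ≠ 0 := by
      intro n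
      induction n with
      | zero => simpa using hne
      | succ n ih => rw [pow_succ, ← mul_assoc, ← hv1]; exact ih
    have h2 : Function.Injective (fun n : ℕ => h * (b * a⁻¹ * b⁻¹) ^ n) := by
      intro m n hmn
      have h3 : (b * a⁻¹ * b⁻¹) ^ m = (b * a⁻¹ * b⁻¹) ^ n := mul_left_cancel hmn
      have h4 : b * a⁻¹ * b⁻¹ ≠ 1 := by
        intro h5
        apply aa_ne_one 1
        have h6 : a⁻¹ = b⁻¹ * (b * a⁻¹ * b⁻¹) * b := by group
        rw [h5] at h6
        simpa using h6
      by_contra hmn'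
      rcases Nat.lt_or_gt_of_ne hmn' with hlt | hlt
      · obtain ⟨k, rfl⟩ := Nat.exists_eq_add_of_lt hlt
        rw [add_assoc, pow_add] at h3
        exact torsionFree _ h4 (k + 1) (by omega) (by simpa using h3)
      · obtain ⟨k, rfl⟩ := Nat.exists_eq_add_of_lt hlt
        rw [add_assoc, pow_add] at h3
        exact torsionFree _ h4 (k + 1) (by omega) (by simpa using h3)
    exact Set.infinite_of_injective_forall_mem h2 (fun n => h1 n) hv
  have hfD : ∀ x, f x = 1 ↔ x ∈ D := by
    intro x
    simp only [f]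
    by_cases hx : x ∈ D <;> simp [hx]
  constructor
  · intro x
    have := hu0 x
    have h2 : f x = f (x * a) := by
      have h3 := eq_neg_of_add_eq_zero_left this
      rw [h3, ZMod.neg_eq_self_mod_two]
    rw [← hfD, ← hfD, h2]
  · intro x
    have := hv0 x
    have h2 : f x = f (x * b) := by
      have h3 := eq_neg_of_add_eq_zero_left this
      rw [h3, ZMod.neg_eq_self_mod_two]
    rw [← hfD, ← hfD, h2]

end Pool.Agent.H289KG
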