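import Mathlib

namespace Pool.Agent.H289KG

open Monoid

/-! ### Ends -/

/-- The Boolean algebra `𝒫_G(G)` of the subsets `A ⊆ G` such that `A ∆ Ag` is finite for every
`g ∈ G`. -/
def AlmostInvariant (G : Type) [Group G] : BooleanSubalgebra (Set G) where
  carrier := {A | ∀ g : G, (symmDiff A ((fun x => x * g) '' A)).Finite}
  supClosed' := by
    intro A hA B hB g
    refine ((hA g).union (hB g)).subset ?_
    intro x hx
    simp only [Set.image_mul_right, Set.mem_symmDiff, Set.mem_preimage, Set.mem_union,
      Set.sup_eq_union] at hx ⊢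
    grind
  infClosed' := by
    intro A hA B hB g
    refine ((hA g).union (hB g)).subset ?_
    intro x hx
    simp only [Set.image_mul_right, Set.mem_symmDiff, Set.mem_preimage, Set.mem_union,
      Set.inf_eq_inter, Set.mem_inter_iff] at hx ⊢
    grind
  compl_mem' := by
    intro A hA g
    refine (hA g).subset ?_
    intro x hx
    simp only [Set.image_mul_right, Set.mem_symmDiff, Set.mem_preimage,
      Set.mem_compl_iff] at hx ⊢
    grind
  bot_mem' := by
    intro g
    simp

/-- The space of ends: the Stone space of the quotient of `𝒫_G(G)` by the ideal of the finite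
subsets, that is, the space of the Boolean algebra homomorphisms `𝒫_G(G) → {0,1}` which vanish on
the finite sets. -/
def Ends (G : Type) [Group G] : Type :=
  {χ : BoundedLatticeHom (AlmostInvariant G) Bool //
    ∀ A : AlmostInvariant G, (A : Set G).Finite → χ A = false}

/-- the topology of pointwise convergence -/
noncomputable instance (G : Type) [Group G] : TopologicalSpace (Ends G) :=
  TopologicalSpace.induced (fun χ => (χ.1 : AlmostInvariant G → Bool)) inferInstance

/-- `G` is metrizably-ended -/
def MetrizablyEnded (G : Type) [Group G] : Prop := TopologicalSpace.MetrizableSpace (Ends G)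

/-! ### Free products -/

/-- freely indecomposable groups -/
def FreelyIndecomposable (G : Type) [Group G] : Prop :=
  Nontrivial G ∧ ∀ (A B : Type) [Group A] [Group B], Nonempty (G ≃* Coprod A B) →
    Subsingleton A ∨ Subsingleton B

/-- finite Kurosh rank -/
def FiniteKuroshRank (G : Type) [Group G] : Prop :=
  ∃ (n : ℕ) (K : Fin n → Type) (_ : ∀ i, Group (K i)),
    (∀ i, FreelyIndecomposable (K i)) ∧ Nonempty (G ≃* CoprodI K)

/-! ### The Kurosh group -/

/-- the relators `a_{n+1} b_{n+1} a_{n+1}⁻¹ b_{n+1}⁻¹ a_n⁻¹`; the generator `Sum.inl n` is `a_n`,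
and `Sum.inr n` is `b_{n+1}` -/
def kuroshRels : Set (FreeGroup (ℕ ⊕ ℕ)) :=
  Set.range fun n : ℕ =>
    FreeGroup.of (Sum.inl (n + 1)) * FreeGroup.of (Sum.inr n) *
      (FreeGroup.of (Sum.inl (n + 1)))⁻¹ * (FreeGroup.of (Sum.inr n))⁻¹ *
      (FreeGroup.of (Sum.inl n))⁻¹

/-- the Kurosh group `⟨a_n (n ≥ 0), b_n (n ≥ 1) ∣ a_n b_n a_n⁻¹ b_n⁻¹ = a_{n-1} (n ≥ 1)⟩` -/
abbrev KuroshGroup : Type := PresentedGroup kuroshRels

end Pool.Agent.H289KG
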