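import Pool.Agent.H289KG.Tree

namespace Pool.Agent.H289KG

open Monoid

section

variable {A : Type} [Group A]

/-- the family of groups of the decomposition -/
def Fam {Q : Type} (S : Q → Subgroup A) (Y : Type) : Q ⊕ Y → Type
  | .inl q => S q
  | .inr _ => Multiplicative ℤ

instance {Q : Type} (S : Q → Subgroup A) (Y : Type) : ∀ i, Group (Fam S Y i)
  | .inl q => inferInstanceAs (Group (S q))
  | .inr _ => inferInstanceAs (Group (Multiplicative ℤ))

section
variable {Q : Type} (S : Q → Subgroup A) (Y : Type)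

def ofL (q : Q) : S q →* CoprodI (Fam S Y) :=
  (CoprodI.of (M := Fam S Y) (i := Sum.inl q) : Fam S Y (Sum.inl q) →* CoprodI (Fam S Y))

def ofR (y : Y) : Multiplicative ℤ →* CoprodI (Fam S Y) :=
  (CoprodI.of (M := Fam S Y) (i := Sum.inr y) : Fam S Y (Sum.inr y) →* CoprodI (Fam S Y))

theorem lift_ofL {N : Type} [Group N] (f : ∀ i, Fam S Y i →* N) (q : Q) (a : S q) :
    CoprodI.lift f (ofL S Y q a) = f (Sum.inl q) a :=
  CoprodI.lift_of (M := Fam S Y) f (i := Sum.inl q) a

theorem lift_ofR {N : Type} [Group N] (f : ∀ i, Fam S Y i →* N) (y : Y)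
    (a : Multiplicative ℤ) :
    CoprodI.lift f (ofR S Y y a) = f (Sum.inr y) a :=
  CoprodI.lift_of (M := Fam S Y) f (i := Sum.inr y) a

open Classical in
noncomputable def inc (q : Q) (a : A) :
    CoprodI (Fam S Y) :=
  if h : a ∈ S q then ofL S Y q ⟨a, h⟩ else 1

theorem inc_of (q : Q) (a : S q) :
    inc S Y q a = ofL S Y q a := by
  unfold inc
  rw [dif_pos a.2]

theorem inc_mul (q : Q) {a b : A}
    (ha : a ∈ S q) (hb : b ∈ S q) : inc S Y q (a * b) = inc S Y q a * inc S Y q b := by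
  unfold inc
  rw [dif_pos ha, dif_pos hb, dif_pos (mul_mem ha hb), ← map_mul]
  rfl

theorem inc_one (q : Q) :
    inc S Y q 1 = 1 := by
  unfold inc
  rw [dif_pos (one_mem _)]
  exact map_one (ofL S Y q)

noncomputable def gn (y : Y) : CoprodI (Fam S Y) :=
  ofR S Y y (Multiplicative.ofAdd (1 : ℤ))
end

end

variable {A G : Type} [Group A] [Group G] {σ : A →* G} {t : G}

theorem kurosh (h : IsFreeExt σ t) (H : Subgroup G) :
    ∃ (ι : Type) (M : ι → Type) (_ : ∀ i, Group (M i)) (Φ : CoprodI M →* G),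
      Function.Injective Φ ∧ Φ.range = H ∧
      ∀ i, (∃ c : G, ∀ m : M i, ∃ a : A, Φ (CoprodI.of m) = c * σ a * c⁻¹) ∨
        (∃ c : G, (∀ n : ℤ, c ^ n = 1 → n = 0) ∧
          ∀ m : M i, ∃ n : ℤ, Φ (CoprodI.of m) = c ^ n) := by
  classical
  obtain ⟨o, τ, γo, T, d, ho, ho0, hγ0, hτ, hτo, hrec, hT⟩ := exists_tree H h
  let γ : G ⧸ H → G := fun x => σ (τ x) * γo (p σ H x)
  have hγT : ∀ x ∈ T, γ (t • x) = t * γ x := hT
  let S : Q σ H → Subgroup A := fun q => (MulAction.stabilizer G (o q)).comap σ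
  have memS : ∀ q a, a ∈ S q ↔ σ a • o q = o q := by
    intro q a
    simp only [S, Subgroup.mem_comap, MulAction.mem_stabilizer_iff]
  let Y : Type := {x : G ⧸ H // x ∉ T}
  let s : G ⧸ H → CoprodI (Fam S Y) := fun x => if hx : x ∈ T then 1 else gn S Y ⟨x, hx⟩
  have hmem : ∀ (a : A) (x : G ⧸ H), (τ (σ a • x))⁻¹ * a * τ x ∈ S (p σ H x) := by
    intro a x
    rw [memS, map_mul, map_mul, mul_smul, mul_smul, hτ x, map_inv, inv_smul_eq_iff]
    have := hτ (σ a • x)
    rw [p_smul] at this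
    exact this.symm
  let fE : A →* Function.End ((G ⧸ H) × CoprodI (Fam S Y)) :=
    { toFun := fun a z => (σ a • z.1, inc S Y (p σ H z.1) ((τ (σ a • z.1))⁻¹ * a * τ z.1) * z.2)
      map_one' := by
        funext z
        show (_, _) = z
        rw [map_one, one_smul, mul_one, inv_mul_cancel, inc_one, one_mul]
      map_mul' := by
        intro a b
        funext z
        show (_, _) = (_, _)
        have h1 : (τ (σ (a * b) • z.1))⁻¹ * (a * b) * τ z.1 =
            ((τ (σ a • σ b • z.1))⁻¹ * a * τ (σ b • z.1)) *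
              ((τ (σ b • z.1))⁻¹ * b * τ z.1) := by
          rw [map_mul, mul_smul]; group
        rw [h1]
        have h2 := hmem a (σ b • z.1)
        rw [p_smul] at h2
        rw [inc_mul S Y _ h2 (hmem b z.1), map_mul, mul_smul, p_smul, mul_assoc] }
  let tp : Equiv.Perm ((G ⧸ H) × CoprodI (Fam S Y)) :=
    { toFun := fun z => (t • z.1, s z.1 * z.2)
      invFun := fun z => (t⁻¹ • z.1, (s (t⁻¹ • z.1))⁻¹ * z.2)
      left_inv := by
        intro z
        simp
      right_inv := by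
        intro z
        simp }
  obtain ⟨F, hF1, hF2⟩ := h.up _ fE.toHomPerm tp
  have Fσ : ∀ a z, F (σ a) z =
      (σ a • z.1, inc S Y (p σ H z.1) ((τ (σ a • z.1))⁻¹ * a * τ z.1) * z.2) := by
    intro a z
    have : F (σ a) = fE.toHomPerm a := by rw [← hF1]; rfl
    rw [this]; rfl
  have Ft : ∀ z, F t z = (t • z.1, s z.1 * z.2) := by
    intro z; rw [hF2]; rfl
  let Φi : ∀ i, Fam S Y i →* G := fun i =>
    match i with
    | .inl q => ((MulAut.conj (γo q)⁻¹).toMonoidHom.comp (σ.comp (S q).subtype) : S q →* G)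
    | .inr y => (zpowersHom G ((γ (t • y.1))⁻¹ * t * γ y.1) : Multiplicative ℤ →* G)
  let Φ : CoprodI (Fam S Y) →* G := CoprodI.lift Φi
  have Φinc : ∀ q a, a ∈ S q → Φ (inc S Y q a) = (γo q)⁻¹ * σ a * γo q := by
    intro q a ha
    have h1 := inc_of S Y q ⟨a, ha⟩
    simp only at h1
    rw [h1]
    show CoprodI.lift Φi _ = _
    rw [lift_ofL]
    show (γo q)⁻¹ * σ a * (γo q)⁻¹⁻¹ = _
    rw [inv_inv]
  have Φgn : ∀ y, Φ (gn S Y y) = (γ (t • y.1))⁻¹ * t * γ y.1 := by
    intro y
    show CoprodI.lift Φi _ = _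
    unfold gn
    rw [lift_ofR]
    show ((γ (t • y.1))⁻¹ * t * γ y.1) ^ (1 : ℤ) = _
    rw [zpow_one]
  have Φs : ∀ x, Φ (s x) = (γ (t • x))⁻¹ * t * γ x := by
    intro x
    by_cases hx : x ∈ T
    · simp only [s, dif_pos hx, map_one]
      rw [hγT x hx]; group
    · simp only [s, dif_neg hx]
      rw [Φgn]
  -- claim 1
  have C1 : ∀ g : G, ∀ z : (G ⧸ H) × CoprodI (Fam S Y), (F g z).1 = g • z.1 ∧
      Φ (F g z).2 = (γ (g • z.1))⁻¹ * g * γ z.1 * Φ z.2 := by
    refine h.induct ?_ ?_ ?_ ?_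
    · intro a z
      rw [Fσ]
      refine ⟨rfl, ?_⟩
      simp only [map_mul]
      rw [Φinc _ _ (hmem a z.1)]
      simp only [γ, p_smul, map_mul, map_inv]
      group
    · intro z
      rw [Ft]
      refine ⟨rfl, ?_⟩
      simp only [map_mul]
      rw [Φs]
    · intro x y hx hy z
      rw [map_mul, Equiv.Perm.mul_apply]
      obtain ⟨hx1, hx2⟩ := hx (F y z)
      obtain ⟨hy1, hy2⟩ := hy z
      refine ⟨by rw [hx1, hy1, mul_smul], ?_⟩
      rw [hx2, hy2, hy1, mul_smul]
      group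
    · intro x hx z
      obtain ⟨hx1, hx2⟩ := hx ((F x)⁻¹ z)
      have hz : F x ((F x)⁻¹ z) = z := Equiv.apply_symm_apply (F x) z
      rw [hz] at hx1 hx2
      have h3 : ((F x)⁻¹ z).1 = x⁻¹ • z.1 := by rw [hx1, inv_smul_smul]
      rw [map_inv]
      refine ⟨h3, ?_⟩
      rw [hx2, h3, smul_inv_smul]
      group
  have C3' : ∀ x k, F (γo (p σ H x)) (x₀ H, k) = (o (p σ H x), k) →
      F (γ x) (x₀ H, k) = (x, k) := by
    intro x k hk
    show F (σ (τ x) * γo (p σ H x)) (x₀ H, k) = _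
    rw [map_mul, Equiv.Perm.mul_apply, hk, Fσ]
    simp only [hτ, hτo, mul_one, inv_mul_cancel, inc_one, one_mul]
  have C3 : ∀ n, ∀ q, d q = n → ∀ k, F (γo q) (x₀ H, k) = (o q, k) := by
    intro n
    induction n using Nat.strong_induction_on with
    | _ n ih =>
      intro q hq k
      rcases hrec q with h1 | ⟨y, hyT, hy1, hy2, hy3⟩ | ⟨h1, h2, h3⟩
      · subst h1
        rw [hγ0, ho0, map_one]; rfl
      · have h4 := ih _ (by omega) (p σ H y) rfl k
        have h5 := C3' y k h4
        have h6 : γo q = t * γ y := hy3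
        rw [h6, map_mul, Equiv.Perm.mul_apply, h5, Ft]
        simp only [s, dif_pos hyT, one_mul, hy1]
      · have h4 := ih _ (by omega) (p σ H (t • o q)) rfl k
        have h5 := C3' (t • o q) k h4
        have h6 : γo q = t⁻¹ * γ (t • o q) := h3
        rw [h6, map_mul, Equiv.Perm.mul_apply, h5, map_inv, Equiv.Perm.inv_eq_iff_eq, Ft]
        simp only [s, dif_pos h1, one_mul]
  have C3o : ∀ q k, F (γo q) (x₀ H, k) = (o q, k) := fun q k => C3 _ q rfl k
  have C3x : ∀ x k, F (γ x) (x₀ H, k) = (x, k) := fun x k => C3' x k (C3o _ _)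
  have C2gn : ∀ y k, F (Φ (gn S Y y)) (x₀ H, k) = (x₀ H, gn S Y y * k) := by
    intro y k
    rw [Φgn, map_mul, map_mul, Equiv.Perm.mul_apply, Equiv.Perm.mul_apply, C3x, Ft, map_inv,
      Equiv.Perm.inv_eq_iff_eq, C3x]
    simp only [s, dif_neg y.2]
    rfl
  have C2 : ∀ κ k, F (Φ κ) (x₀ H, k) = (x₀ H, κ * k) := by
    intro κ
    induction κ using CoprodI.induction_on with
    | one => intro k; rw [map_one, map_one, one_mul]; rfl
    | of i m =>
      intro k
      match i, m with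
      | .inl q, m =>
        have h1 : (CoprodI.of (M := Fam S Y) (i := Sum.inl q) m) = inc S Y q (m : S q).1 :=
          (inc_of S Y q m).symm
        have hm2 : (m : S q).1 ∈ S q := (m : S q).2
        generalize (m : S q).1 = m' at h1 hm2
        rw [h1, Φinc _ _ hm2, map_mul, map_mul, Equiv.Perm.mul_apply,
          Equiv.Perm.mul_apply, C3o, Fσ, map_inv, Equiv.Perm.inv_eq_iff_eq, C3o]
        have h2 : σ m' • o q = o q := (memS q _).1 hm2
        simp only [h2, hτo, ho, inv_one, one_mul, mul_one]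
      | .inr y, m =>
        have h1 : ∀ n : ℤ, ∀ k, F (Φ ((gn S Y y) ^ n)) (x₀ H, k) = (x₀ H, (gn S Y y) ^ n * k) := by
          intro n
          induction n using Int.induction_on with
          | zero => intro k; rw [zpow_zero, map_one, map_one, one_mul]; rfl
          | succ n ih =>
            intro k
            rw [zpow_add_one, map_mul, map_mul, Equiv.Perm.mul_apply, C2gn, ih, mul_assoc]
          | pred n ih =>
            intro k
            rw [zpow_sub_one, map_mul, map_mul, Equiv.Perm.mul_apply]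
            have h2 : F (Φ (gn S Y y)⁻¹) (x₀ H, k) = (x₀ H, (gn S Y y)⁻¹ * k) := by
              rw [map_inv, map_inv, Equiv.Perm.inv_eq_iff_eq, C2gn, mul_inv_cancel_left]
            rw [h2, ih, mul_assoc]
        have h2 : ∀ m' : Multiplicative ℤ, ofR S Y y m' = (gn S Y y) ^ m'.toAdd := by
          intro m'
          unfold gn
          rw [← map_zpow]
          congr 1
          rw [← ofAdd_zsmul]
          simp
        have h4 : ∀ m' : Multiplicative ℤ, F (Φ (ofR S Y y m')) (x₀ H, k) =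
            (x₀ H, ofR S Y y m' * k) := by
          intro m'
          rw [h2 m']
          exact h1 _ k
        exact h4 m
    | mul x y hx hy =>
      intro k
      rw [map_mul, map_mul, Equiv.Perm.mul_apply, hy, hx, mul_assoc]
  have Φinj : Function.Injective Φ := by
    rw [injective_iff_map_eq_one]
    intro κ hκ
    have := C2 κ 1
    rw [hκ, map_one] at this
    have h2 := (Prod.ext_iff.1 this).2
    simpa using h2.symm
  have hγx0 : γ (x₀ H) = 1 := by
    show σ (τ (x₀ H)) * γo (p σ H (x₀ H)) = 1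
    have : τ (x₀ H) = 1 := by
      have := hτo (p σ H (x₀ H))
      rwa [ho0] at this
    rw [this, hγ0, map_one, one_mul]
  have hstab : ∀ g : G, g • x₀ H = x₀ H ↔ g ∈ H := by
    intro g
    have : g • x₀ H = ((g : G) : G ⧸ H) := by
      show ((g * 1 : G) : G ⧸ H) = _
      rw [mul_one]
    rw [this, eq_comm, QuotientGroup.eq]
    simp
  have Φrange : Φ.range = H := by
    ext g
    constructor
    · rintro ⟨κ, rfl⟩
      rw [← hstab, ← (C1 (Φ κ) (x₀ H, 1)).1, C2]
    · intro hg
      refine ⟨(F g (x₀ H, 1)).2, ?_⟩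
      rw [(C1 g (x₀ H, 1)).2]
      simp only [(hstab g).2 hg, hγx0, map_one]
      group
  refine ⟨Q σ H ⊕ Y, Fam S Y, inferInstance, Φ, Φinj, Φrange, ?_⟩
  intro i
  match i with
  | .inl q =>
    left
    refine ⟨(γo q)⁻¹, fun m => ⟨(m : S q).1, ?_⟩⟩
    have h1 : (CoprodI.of (M := Fam S Y) (i := Sum.inl q) m) = inc S Y q (m : S q).1 :=
      (inc_of S Y q m).symm
    have hm2 : (m : S q).1 ∈ S q := (m : S q).2
    rw [h1, Φinc _ _ hm2, inv_inv]
  | .inr y =>
    right
    refine ⟨(γ (t • y.1))⁻¹ * t * γ y.1, ?_, ?_⟩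
    · intro n hn
      have h0 : Φ ((gn S Y y) ^ n) = 1 := by rw [map_zpow, Φgn, hn]
      have h1 : (gn S Y y) ^ n = 1 := Φinj (by rw [h0, map_one])
      unfold gn at h1
      rw [← map_zpow, ← ofAdd_zsmul] at h1
      have h2 : (Multiplicative.ofAdd (n • (1 : ℤ))) = 1 :=
        CoprodI.of_injective (M := Fam S Y) (Sum.inr y) (h1.trans (map_one (ofR S Y y)).symm)
      simpa using h2
    · intro m
      exact ⟨Multiplicative.toAdd (m : Multiplicative ℤ), lift_ofR S Y Φi y m⟩

end Pool.Agent.H289KG
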