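import Pool.Agent.H289KG.Defs
import Pool.Agent.H289KG.Kurosh

namespace Pool.Agent.H289KG

open Monoid

theorem FreelyIndecomposable.congr {G G' : Type} [Group G] [Group G']
    (h : FreelyIndecomposable G) (e : G ≃* G') : FreelyIndecomposable G' := by
  obtain ⟨h1, h2⟩ := h
  refine ⟨e.symm.toEquiv.nontrivial, ?_⟩
  rintro A B _ _ ⟨f⟩
  exact h2 A B ⟨e.trans f⟩

section split

variable {ι : Type} {M : ι → Type} [∀ i, Group (M i)]

open Classical in
noncomputable def fwd (i₀ : ι) :
    CoprodI M →* Coprod (M i₀) (CoprodI (fun j : {j // j ≠ i₀} => M j.1)) :=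
  CoprodI.lift (fun i => if h : i₀ = i then h ▸ Coprod.inl
    else Coprod.inr.comp
      (CoprodI.of (M := fun j : {j // j ≠ i₀} => M j.1) (i := ⟨i, fun h' => h h'.symm⟩)))

noncomputable def bwd (i₀ : ι) :
    Coprod (M i₀) (CoprodI (fun j : {j // j ≠ i₀} => M j.1)) →* CoprodI M :=
  Coprod.lift (CoprodI.of (i := i₀)) (CoprodI.lift (fun j => CoprodI.of (i := j.1)))

theorem fwd_self (i₀ : ι) (m : M i₀) : fwd (M := M) i₀ (CoprodI.of m) = Coprod.inl m := by
  unfold fwd
  rw [CoprodI.lift_of, dif_pos rfl]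

theorem fwd_other (i₀ : ι) (j : ι) (h : j ≠ i₀) (m : M j) :
    fwd (M := M) i₀ (CoprodI.of m) =
      Coprod.inr (CoprodI.of (M := fun j : {j // j ≠ i₀} => M j.1) (i := ⟨j, h⟩) m) := by
  unfold fwd
  rw [CoprodI.lift_of, dif_neg (fun h' => h h'.symm)]
  rfl

noncomputable def split (i₀ : ι) :
    CoprodI M ≃* Coprod (M i₀) (CoprodI (fun j : {j // j ≠ i₀} => M j.1)) :=
  MonoidHom.toMulEquiv (fwd i₀) (bwd i₀)
    (by
      refine CoprodI.ext_hom _ _ (fun i => ?_)
      ext m
      simp only [MonoidHom.comp_apply, MonoidHom.id_apply]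
      by_cases h : i = i₀
      · subst h
        rw [fwd_self]
        simp [bwd]
      · rw [fwd_other i₀ i h]
        simp [bwd])
    (by
      refine Coprod.hom_ext ?_ ?_
      · ext m
        simp only [MonoidHom.comp_apply, MonoidHom.id_apply, bwd, Coprod.lift_apply_inl]
        rw [fwd_self]
      · refine CoprodI.ext_hom _ _ (fun j => ?_)
        ext m
        simp only [MonoidHom.comp_apply, MonoidHom.id_apply, bwd, Coprod.lift_apply_inr,
          CoprodI.lift_of]
        rw [fwd_other i₀ j.1 j.2])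

theorem fi_coprodI (h : FreelyIndecomposable (CoprodI M)) :
    ∃ i₀, ∀ z : CoprodI M, ∃ m : M i₀, CoprodI.of m = z := by
  classical
  obtain ⟨h1, h2⟩ := h
  have h3 : ∃ i₀, Nontrivial (M i₀) := by
    by_contra hne
    push Not at hne
    have hall : ∀ z : CoprodI M, z = 1 := by
      intro z
      induction z using CoprodI.induction_on with
      | one => rfl
      | of i m =>
        have : Subsingleton (M i) := hne i
        rw [Subsingleton.elim m 1, map_one]
      | mul x y hx hy => rw [hx, hy, one_mul]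
    obtain ⟨x, y, hxy⟩ := h1
    exact hxy (by rw [hall x, hall y])
  obtain ⟨i₀, hi⟩ := h3
  refine ⟨i₀, ?_⟩
  have h4 := h2 _ _ ⟨split i₀⟩
  have h5 : Subsingleton (CoprodI (fun j : {j // j ≠ i₀} => M j.1)) := by
    rcases h4 with h4 | h4
    · exact absurd hi (not_nontrivial_iff_subsingleton.2 h4)
    · exact h4
  intro z
  induction z using CoprodI.induction_on with
  | one => exact ⟨1, map_one _⟩
  | of i m =>
    by_cases h : i = i₀
    · subst h; exact ⟨m, rfl⟩
    · refine ⟨1, ?_⟩
      have h6 : m = 1 := by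
        apply CoprodI.of_injective (M := fun j : {j // j ≠ i₀} => M j.1) ⟨i, h⟩
        exact Subsingleton.elim _ _
      rw [h6, map_one, map_one]
  | mul x y hx hy =>
    obtain ⟨a, rfl⟩ := hx
    obtain ⟨b, rfl⟩ := hy
    exact ⟨a * b, map_mul _ _ _⟩

end split

/-- nontrivial abelian groups are freely indecomposable -/
theorem fi_of_comm {G : Type} [Group G] (hn : Nontrivial G) (hc : ∀ x y : G, x * y = y * x) :
    FreelyIndecomposable G := by
  classical
  refine ⟨hn, ?_⟩
  rintro A B _ _ ⟨e⟩
  by_contra hcon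
  push Not at hcon
  obtain ⟨hA, hB⟩ := hcon
  obtain ⟨a, ha⟩ := exists_ne (1 : A)
  obtain ⟨b, hb⟩ := exists_ne (1 : B)
  let fA : A →* Function.End (A × B) :=
    { toFun := fun a z => if z.2 = 1 then (a * z.1, z.2) else z
      map_one' := by
        funext z
        show (if z.2 = 1 then _ else _) = z
        simp
      map_mul' := by
        intro x y
        funext z
        show (if z.2 = 1 then _ else _) = (if (if z.2 = 1 then _ else _ : A × B).2 = 1 then _ else _)
        by_cases h : z.2 = 1 <;> simp [h, mul_assoc] }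
  let fB : B →* Function.End (A × B) :=
    { toFun := fun b z => if z.1 = 1 then (z.1, b * z.2) else z
      map_one' := by
        funext z
        show (if z.1 = 1 then _ else _) = z
        simp
      map_mul' := by
        intro x y
        funext z
        show (if z.1 = 1 then _ else _) = (if (if z.1 = 1 then _ else _ : A × B).1 = 1 then _ else _)
        by_cases h : z.1 = 1 <;> simp [h, mul_assoc] }
  have hcomm : (Coprod.inl a * Coprod.inr b : Coprod A B) = Coprod.inr b * Coprod.inl a := by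
    have := hc (e.symm (Coprod.inl a)) (e.symm (Coprod.inr b))
    apply e.symm.injective
    rw [map_mul, map_mul, this]
  have h1 := congrArg (Coprod.lift fA fB) hcomm
  rw [map_mul, map_mul, Coprod.lift_apply_inl, Coprod.lift_apply_inr] at h1
  have h2 := congrFun h1 (1, 1)
  have h3 : (fA a * fB b) (1, 1) = (1, b) := by
    show fA a (fB b (1, 1)) = (1, b)
    have : fB b (1, 1) = (1, b) := by
      show (if (1 : A) = 1 then _ else _) = _
      simp
    rw [this]
    show (if b = 1 then _ else _) = _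
    rw [if_neg hb]
  have h4 : (fB b * fA a) (1, 1) = (a, 1) := by
    show fB b (fA a (1, 1)) = (a, 1)
    have : fA a (1, 1) = (a, 1) := by
      show (if (1 : B) = 1 then _ else _) = _
      simp
    rw [this]
    show (if a = 1 then _ else _) = _
    rw [if_neg ha]
  rw [h3, h4] at h2
  exact ha (Prod.ext_iff.1 h2).1.symm

theorem fi_subgroup {A G : Type} [Group A] [Group G] {σ : A →* G} {t : G}
    (h : IsFreeExt σ t) (H : Subgroup G) (hH : FreelyIndecomposable H) :
    (∃ c : G, ∀ x ∈ H, ∃ a : A, x = c * σ a * c⁻¹) ∨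
      (∃ c : G, (∀ n : ℤ, c ^ n = 1 → n = 0) ∧ ∀ x ∈ H, ∃ n : ℤ, x = c ^ n) := by
  obtain ⟨ι, M, _, Φ, h1, h2, h3⟩ := kurosh h H
  have e : CoprodI M ≃* H := (MonoidHom.ofInjective h1).trans (MulEquiv.subgroupCongr h2)
  obtain ⟨i₀, hi⟩ := fi_coprodI (hH.congr e.symm)
  rcases h3 i₀ with ⟨c, hc⟩ | ⟨c, hc0, hc⟩
  · left
    refine ⟨c, fun x hx => ?_⟩
    rw [← h2] at hx
    obtain ⟨z, rfl⟩ := hx
    obtain ⟨m, rfl⟩ := hi z
    exact hc m
  · right
    refine ⟨c, hc0, fun x hx => ?_⟩
    rw [← h2] at hx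
    obtain ⟨z, rfl⟩ := hx
    obtain ⟨m, rfl⟩ := hi z
    exact hc m

end Pool.Agent.H289KG
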