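import Pool.Agent.H289KG.FI

namespace Pool.Agent.H289KG

open Monoid

def aa (n : ℕ) : KuroshGroup := PresentedGroup.of (Sum.inl n)
def bb (n : ℕ) : KuroshGroup := PresentedGroup.of (Sum.inr n)

theorem rel (n : ℕ) : aa (n + 1) * bb n * (aa (n + 1))⁻¹ * (bb n)⁻¹ = aa n := by
  have h : (PresentedGroup.mk kuroshRels) (FreeGroup.of (Sum.inl (n + 1)) *
      FreeGroup.of (Sum.inr n) *
      (FreeGroup.of (Sum.inl (n + 1)))⁻¹ * (FreeGroup.of (Sum.inr n))⁻¹ *
      (FreeGroup.of (Sum.inl n))⁻¹) = 1 :=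
    PresentedGroup.one_of_mem ⟨n, rfl⟩
  simp only [map_mul, map_inv] at h
  exact mul_inv_eq_one.1 h

theorem gens_induct {P : KuroshGroup → Prop} (ha : ∀ n, P (aa n)) (hb : ∀ n, P (bb n))
    (h1 : P 1) (hm : ∀ x y, P x → P y → P (x * y)) (hi : ∀ x, P x → P x⁻¹) : ∀ g, P g := by
  intro g
  have hg : g ∈ Subgroup.closure (Set.range (PresentedGroup.of (rels := kuroshRels))) := by
    rw [PresentedGroup.closure_range_of]; trivial
  induction hg using Subgroup.closure_induction with
  | mem x hx =>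
    obtain ⟨i, rfl⟩ := hx
    rcases i with n | n
    · exact ha n
    · exact hb n
  | one => exact h1
  | mul x y _ _ hx hy => exact hm x y hx hy
  | inv x _ hx => exact hi x hx

def mkHom {K : Type} [Group K] (f : ℕ ⊕ ℕ → K)
    (hf : ∀ n, f (Sum.inl (n + 1)) * f (Sum.inr n) * (f (Sum.inl (n + 1)))⁻¹ *
      (f (Sum.inr n))⁻¹ = f (Sum.inl n)) : KuroshGroup →* K :=
  PresentedGroup.toGroup (f := f) (by
    rintro r ⟨n, rfl⟩
    simp only [map_mul, map_inv, FreeGroup.lift_apply_of]
    rw [hf, mul_inv_cancel])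

theorem mkHom_aa {K : Type} [Group K] (f : ℕ ⊕ ℕ → K) (hf) (n : ℕ) :
    mkHom f hf (aa n) = f (Sum.inl n) := PresentedGroup.toGroup.of _

theorem mkHom_bb {K : Type} [Group K] (f : ℕ ⊕ ℕ → K) (hf) (n : ℕ) :
    mkHom f hf (bb n) = f (Sum.inr n) := PresentedGroup.toGroup.of _

def σ : KuroshGroup →* KuroshGroup :=
  mkHom (fun i => match i with
    | .inl n => aa (n + 1)
    | .inr n => bb (n + 1)) (fun n => rel (n + 1))

theorem σ_aa (n : ℕ) : σ (aa n) = aa (n + 1) := mkHom_aa _ _ _
theorem σ_bb (n : ℕ) : σ (bb n) = bb (n + 1) := mkHom_bb _ _ _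

theorem hom_ext {K : Type} [Group K] {f g : KuroshGroup →* K} (h1 : ∀ n, f (aa n) = g (aa n))
    (h2 : ∀ n, f (bb n) = g (bb n)) : f = g := by
  refine PresentedGroup.ext (fun x => ?_)
  rcases x with n | n
  · exact h1 n
  · exact h2 n

def extHom {K : Type} [Group K] (f : KuroshGroup →* K) (k : K) : KuroshGroup →* K :=
  mkHom (fun i => match i with
    | .inl 0 => f (aa 0) * k * (f (aa 0))⁻¹ * k⁻¹
    | .inl (n + 1) => f (aa n)
    | .inr 0 => k
    | .inr (n + 1) => f (bb n)) (by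
      intro n
      cases n with
      | zero => rfl
      | succ n =>
        show f (aa (n + 1)) * f (bb n) * (f (aa (n + 1)))⁻¹ * (f (bb n))⁻¹ = f (aa n)
        rw [← rel n]
        simp only [map_mul, map_inv])

theorem extHom_comp {K : Type} [Group K] (f : KuroshGroup →* K) (k : K) :
    (extHom f k).comp σ = f := by
  refine hom_ext (fun n => ?_) (fun n => ?_)
  · rw [MonoidHom.comp_apply, σ_aa]
    exact mkHom_aa _ _ _
  · rw [MonoidHom.comp_apply, σ_bb]
    exact mkHom_bb _ _ _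

theorem extHom_bb {K : Type} [Group K] (f : KuroshGroup →* K) (k : K) :
    extHom f k (bb 0) = k := mkHom_bb _ _ _

theorem extHom_aa {K : Type} [Group K] (f : KuroshGroup →* K) (k : K) :
    extHom f k (aa 0) = f (aa 0) * k * (f (aa 0))⁻¹ * k⁻¹ := mkHom_aa _ _ _

theorem isFreeExt : IsFreeExt σ (bb 0) where
  up := fun K _ f k => ⟨extHom f k, extHom_comp f k, extHom_bb f k⟩
  gen := by
    rw [eq_top_iff]
    intro x _
    have ha : ∀ n, aa (n + 1) ∈ Subgroup.closure (Set.range σ ∪ {bb 0}) := by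
      intro n
      rw [← σ_aa]
      exact Subgroup.subset_closure (Or.inl ⟨_, rfl⟩)
    have hb0 : bb 0 ∈ Subgroup.closure (Set.range σ ∪ {bb 0}) :=
      Subgroup.subset_closure (Or.inr rfl)
    induction x using gens_induct with
    | ha n =>
      cases n with
      | zero =>
        rw [← rel 0]
        exact mul_mem (mul_mem (mul_mem (ha 0) hb0) (inv_mem (ha 0))) (inv_mem hb0)
      | succ n => exact ha n
    | hb n =>
      cases n with
      | zero => exact hb0
      | succ n =>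
        rw [← σ_bb]
        exact Subgroup.subset_closure (Or.inl ⟨_, rfl⟩)
    | h1 => exact one_mem _
    | hm x y hx hy => exact mul_mem (hx trivial) (hy trivial)
    | hi x hx => exact inv_mem (hx trivial)

def ρ : KuroshGroup →* KuroshGroup := extHom (MonoidHom.id _) 1

theorem ρσ (x : KuroshGroup) : ρ (σ x) = x :=
  DFunLike.congr_fun (extHom_comp (MonoidHom.id _) 1) x

theorem σ_injective : Function.Injective σ := fun x y h => by rw [← ρσ x, ← ρσ y, h]

theorem ρ_aa0 : ρ (aa 0) = 1 := by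
  unfold ρ; rw [extHom_aa]; simp

theorem ρ_bb0 : ρ (bb 0) = 1 := extHom_bb _ _

theorem ρ_aa (n : ℕ) : ρ (aa (n + 1)) = aa n := by rw [← σ_aa, ρσ]
theorem ρ_bb (n : ℕ) : ρ (bb (n + 1)) = bb n := by rw [← σ_bb, ρσ]

theorem ρ_mono {x : KuroshGroup} {k l : ℕ} (hkl : k ≤ l) (h : ρ^[k] x = 1) : ρ^[l] x = 1 := by
  obtain ⟨m, rfl⟩ := Nat.exists_eq_add_of_le' hkl
  rw [Function.iterate_add_apply, h]
  exact iterate_map_one ρ m

theorem ρ_kill (x : KuroshGroup) : ∃ k, ρ^[k] x = 1 := by
  induction x using gens_induct with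
  | ha n =>
    refine ⟨n + 1, ?_⟩
    induction n with
    | zero => exact ρ_aa0
    | succ n ih => rw [Function.iterate_succ_apply, ρ_aa, ih]
  | hb n =>
    refine ⟨n + 1, ?_⟩
    induction n with
    | zero => exact ρ_bb0
    | succ n ih => rw [Function.iterate_succ_apply, ρ_bb, ih]
  | h1 => exact ⟨0, rfl⟩
  | hm x y hx hy =>
    obtain ⟨k, hk⟩ := hx
    obtain ⟨l, hl⟩ := hy
    refine ⟨max k l, ?_⟩
    rw [iterate_map_mul, ρ_mono (le_max_left k l) hk, ρ_mono (le_max_right k l) hl, one_mul]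
  | hi x hx =>
    obtain ⟨k, hk⟩ := hx
    exact ⟨k, by rw [iterate_map_inv, hk, inv_one]⟩

theorem ρσ_iter (k : ℕ) (x : KuroshGroup) : ρ^[k] (σ^[k] x) = x := by
  induction k with
  | zero => rfl
  | succ k ih => rw [Function.iterate_succ_apply, Function.iterate_succ_apply', ρσ, ih]

theorem aa_zero_ne_one : aa 0 ≠ 1 := by
  let f : ℕ ⊕ ℕ → Equiv.Perm (Fin 3) := fun i => match i with
    | .inl n => if Even n then finRotate 3 else (finRotate 3)⁻¹
    | .inr _ => Equiv.swap 0 1
  have hf : ∀ n, f (Sum.inl (n + 1)) * f (Sum.inr n) * (f (Sum.inl (n + 1)))⁻¹ *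
      (f (Sum.inr n))⁻¹ = f (Sum.inl n) := by
    intro n
    by_cases hn : Even n
    · have hn1 : ¬ Even (n + 1) := by rw [Nat.even_add_one, not_not]; exact hn
      simp only [f, if_neg hn1, if_pos hn]
      decide
    · have hn1 : Even (n + 1) := by rw [Nat.even_add_one]; exact hn
      simp only [f, if_neg hn, if_pos hn1]
      decide
  intro h
  have h1 := mkHom_aa f hf 0
  rw [h, map_one] at h1
  simp only [f, Even.zero, if_true] at h1
  revert h1
  decide

theorem aa_ne_one (n : ℕ) : aa n ≠ 1 := by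
  induction n with
  | zero => exact aa_zero_ne_one
  | succ n ih =>
    intro h
    apply ih
    rw [← rel n, h]
    group

/-- every freely indecomposable subgroup is infinite cyclic -/
theorem fi_cyclic (H : Subgroup KuroshGroup) (hH : FreelyIndecomposable H) :
    ∃ c : KuroshGroup, (∀ n : ℤ, c ^ n = 1 → n = 0) ∧ ∀ x ∈ H, ∃ n : ℤ, x = c ^ n := by
  by_contra hcon
  have key : ∀ k : ℕ, ∃ c : KuroshGroup, ∀ x ∈ H, ∃ a, x = c * σ^[k] a * c⁻¹ := by
    intro k
    induction k with
    | zero => exact ⟨1, fun x _ => ⟨x, by simp⟩⟩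
    | succ k ih =>
      obtain ⟨c, hc⟩ := ih
      let ψ : KuroshGroup →* KuroshGroup :=
        { toFun := fun a => c * σ^[k] a * c⁻¹
          map_one' := by rw [iterate_map_one]; simp
          map_mul' := by intro x y; rw [iterate_map_mul]; group }
      have hψ : Function.Injective ψ := by
        intro x y hxy
        have h1 : c * σ^[k] x * c⁻¹ = c * σ^[k] y * c⁻¹ := hxy
        have h2 : σ^[k] x = σ^[k] y := by simpa using h1
        exact σ_injective.iterate k h2
      have hr : H ≤ ψ.range := by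
        intro x hx
        obtain ⟨a, ha⟩ := hc x hx
        exact ⟨a, ha.symm⟩
      have e : (H.comap ψ) ≃* H := by
        have h1 : (H.comap ψ).map ψ = H := Subgroup.map_comap_eq_self hr
        exact ((H.comap ψ).equivMapOfInjective ψ hψ).trans (MulEquiv.subgroupCongr h1)
      rcases fi_subgroup isFreeExt (H.comap ψ) (hH.congr e.symm) with ⟨c', hc'⟩ | ⟨c', h0, hc'⟩
      · refine ⟨c * σ^[k] c', fun x hx => ?_⟩
        obtain ⟨y, rfl⟩ := hr hx
        obtain ⟨a, rfl⟩ := hc' y hx
        refine ⟨a, ?_⟩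
        show c * σ^[k] (c' * σ a * c'⁻¹) * c⁻¹ = _
        rw [iterate_map_mul, iterate_map_mul, iterate_map_inv, Function.iterate_succ_apply]
        group
      · exfalso
        apply hcon
        refine ⟨ψ c', fun n hn => ?_, fun x hx => ?_⟩
        · apply h0
          apply hψ
          rw [map_zpow, hn, map_one]
        · obtain ⟨y, rfl⟩ := hr hx
          obtain ⟨n, rfl⟩ := hc' y hx
          exact ⟨n, map_zpow _ _ _⟩
  have hn := hH.1
  obtain ⟨x, hx⟩ := exists_ne (1 : H)
  obtain ⟨k, hk⟩ := ρ_kill x.1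
  obtain ⟨c, hc⟩ := key k
  obtain ⟨a, ha⟩ := hc x.1 x.2
  rw [ha, iterate_map_mul, iterate_map_mul, iterate_map_inv, ρσ_iter] at hk
  have h1 : a = 1 := by
    have := mul_inv_eq_one.1 hk
    simpa using this
  apply hx
  ext
  rw [ha, h1, iterate_map_one]
  simp

theorem torsionFree (x : KuroshGroup) (hx : x ≠ 1) (n : ℕ) (hn : 0 < n) : x ^ n ≠ 1 := by
  intro hxn
  have hfi : FreelyIndecomposable (Subgroup.zpowers x) := by
    refine fi_of_comm ?_ ?_
    · exact (Subgroup.nontrivial_iff_ne_bot _).2 (by simpa [Subgroup.zpowers_eq_bot] using hx)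
    · intro y z
      exact mul_comm' y z
  obtain ⟨c, hc0, hc⟩ := fi_cyclic _ hfi
  obtain ⟨m, hm⟩ := hc x (Subgroup.mem_zpowers x)
  have h1 : c ^ (m * n) = 1 := by
    rw [zpow_mul, ← hm, zpow_natCast, hxn]
  have h2 := hc0 _ h1
  have h3 : m = 0 := by
    rcases mul_eq_zero.1 h2 with h | h
    · exact h
    · exfalso; have : n = 0 := by exact_mod_cast h
      omega
  rw [h3, zpow_zero] at hm
  exact hx hm

theorem not_finiteKuroshRank : ¬ FiniteKuroshRank KuroshGroup := by
  rintro ⟨n, K, _, hK, ⟨e⟩⟩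
  have h1 : ∀ i, ∃ c : KuroshGroup, ∀ m : K i, ∃ k : ℤ, e.symm (CoprodI.of m) = c ^ k := by
    intro i
    let φ : K i →* KuroshGroup := e.symm.toMonoidHom.comp CoprodI.of
    have hφ : Function.Injective φ := e.symm.injective.comp (CoprodI.of_injective i)
    obtain ⟨c, -, hc⟩ := fi_cyclic φ.range ((hK i).congr (MonoidHom.ofInjective hφ))
    exact ⟨c, fun m => hc _ ⟨m, rfl⟩⟩
  choose c hc using h1
  choose k hk using fun i => ρ_kill (c i)
  obtain ⟨N, hN⟩ : ∃ N, ∀ i, k i ≤ N := by
    refine ⟨Finset.univ.sup k, fun i => Finset.le_sup (Finset.mem_univ i)⟩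
  have hall : ∀ z : CoprodI K, ρ^[N] (e.symm z) = 1 := by
    intro z
    induction z using CoprodI.induction_on with
    | one => rw [map_one, iterate_map_one]
    | of i m =>
      obtain ⟨l, hl⟩ := hc i m
      rw [hl, iterate_map_zpow, ρ_mono (hN i) (hk i), one_zpow]
    | mul x y hx hy => rw [map_mul, iterate_map_mul, hx, hy, one_mul]
  have h2 := hall (e (σ^[N] (aa 0)))
  rw [MulEquiv.symm_apply_apply, ρσ_iter] at h2
  exact aa_zero_ne_one h2

end Pool.Agent.H289KG
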