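import Pool.Agent.H289KG.Cocycle

namespace Pool.Agent.H289KG

open Monoid

theorem inv_all (n : ℕ) : ∀ D ∈ AlmostInvariant KuroshGroup, (∀ x, x ∈ D ↔ x * aa 0 ∈ D) →
    (∀ x, x ∈ D ↔ x * aa n ∈ D) ∧ (∀ x, x ∈ D ↔ x * bb n ∈ D) := by
  induction n with
  | zero => exact fun D hD h0 => ⟨h0, (key_lemma D hD h0).2⟩
  | succ n ih =>
    intro D hD h0
    have h1 := (key_lemma D hD h0).1
    have key : ∀ x, (x ∈ D ↔ x * aa (n + 1) ∈ D) ∧ (x ∈ D ↔ x * bb (n + 1) ∈ D) := by
      intro x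
      let E : Set KuroshGroup := {z | x * σ z ∈ D}
      have hE : E ∈ AlmostInvariant KuroshGroup := by
        intro g
        have hinj : Function.Injective (fun z => x * σ z) := by
          intro y z hyz
          exact σ_injective (mul_left_cancel hyz)
        refine ((hD (σ g)).preimage hinj.injOn).subset ?_
        intro z hz
        simp only [Set.image_mul_right, Set.mem_symmDiff, Set.mem_preimage] at hz ⊢
        have e1 : x * σ z * (σ g)⁻¹ = x * σ (z * g⁻¹) := by rw [map_mul, map_inv, mul_assoc]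
        rw [e1]
        exact hz
      have hE0 : ∀ z, z ∈ E ↔ z * aa 0 ∈ E := by
        intro z
        show x * σ z ∈ D ↔ x * σ (z * aa 0) ∈ D
        rw [map_mul, σ_aa, ← mul_assoc]
        exact h1 _
      obtain ⟨h2, h3⟩ := ih E hE hE0
      have h4 := h2 1
      have h5 := h3 1
      change x * σ 1 ∈ D ↔ x * σ (1 * aa n) ∈ D at h4
      change x * σ 1 ∈ D ↔ x * σ (1 * bb n) ∈ D at h5
      rw [map_one, mul_one, one_mul, σ_aa] at h4
      rw [map_one, mul_one, one_mul, σ_bb] at h5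
      exact ⟨h4, h5⟩
    exact ⟨fun x => (key x).1, fun x => (key x).2⟩

theorem inv_trivial (D : Set KuroshGroup) (hD : D ∈ AlmostInvariant KuroshGroup)
    (h0 : ∀ x, x ∈ D ↔ x * aa 0 ∈ D) : ∀ g x, x ∈ D ↔ x * g ∈ D := by
  refine gens_induct ?_ ?_ ?_ ?_ ?_
  · exact fun n => (inv_all n D hD h0).1
  · exact fun n => (inv_all n D hD h0).2
  · intro x; rw [mul_one]
  · intro g h hg hh x
    rw [hg x, hh (x * g), mul_assoc]
  · intro g hg x
    rw [hg (x * g⁻¹), inv_mul_cancel_right]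

theorem countable_almostInvariant : Countable (AlmostInvariant KuroshGroup) := by
  classical
  have : Countable KuroshGroup := by
    have h1 : Countable (FreeGroup (ℕ ⊕ ℕ)) := inferInstance
    exact (PresentedGroup.mk_surjective kuroshRels).countable
  have hfin : ∀ D : AlmostInvariant KuroshGroup,
      {x | ¬ (x ∈ D.1 ↔ x * aa 0 ∈ D.1)}.Finite := by
    intro D
    refine (D.2 (aa 0)⁻¹).subset ?_
    intro x hx
    simp only [Set.image_mul_right, inv_inv, Set.mem_symmDiff, Set.mem_preimage]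
    have hx' : ¬ (x ∈ D.1 ↔ x * aa 0 ∈ D.1) := hx
    tauto
  let F : AlmostInvariant KuroshGroup → Finset KuroshGroup × Bool :=
    fun D => ((hfin D).toFinset, decide (1 ∈ D.1))
  have hF : Function.Injective F := by
    intro D D' h
    have h1 : (hfin D).toFinset = (hfin D').toFinset := (Prod.ext_iff.1 h).1
    have h2 : decide (1 ∈ D.1) = decide (1 ∈ D'.1) := (Prod.ext_iff.1 h).2
    have h2' : (1 ∈ D.1 ↔ 1 ∈ D'.1) := by simpa using h2
    have h3 : ∀ x, (x ∈ D.1 ↔ x * aa 0 ∈ D.1) ↔ (x ∈ D'.1 ↔ x * aa 0 ∈ D'.1) := by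
      intro x
      have h4 : x ∈ (hfin D).toFinset ↔ x ∈ (hfin D').toFinset := by rw [h1]
      rw [Set.Finite.mem_toFinset, Set.Finite.mem_toFinset] at h4
      exact not_iff_not.1 h4
    let E : Set KuroshGroup := {x | ¬ (x ∈ D.1 ↔ x ∈ D'.1)}
    have hE : E ∈ AlmostInvariant KuroshGroup := by
      intro g
      refine ((D.2 g).union (D'.2 g)).subset ?_
      intro x hx
      have hx1 : (x ∈ E ∧ x * g⁻¹ ∉ E) ∨ (x * g⁻¹ ∈ E ∧ x ∉ E) := by
        simpa only [Set.image_mul_right, Set.mem_symmDiff, Set.mem_preimage] using hx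
      have hx2 : (¬ (x ∈ D.1 ↔ x ∈ D'.1) ∧ ¬ ¬ (x * g⁻¹ ∈ D.1 ↔ x * g⁻¹ ∈ D'.1)) ∨
          (¬ (x * g⁻¹ ∈ D.1 ↔ x * g⁻¹ ∈ D'.1) ∧ ¬ ¬ (x ∈ D.1 ↔ x ∈ D'.1)) := hx1
      simp only [Set.image_mul_right, Set.mem_symmDiff, Set.mem_preimage, Set.mem_union]
      tauto
    have hE0 : ∀ x, x ∈ E ↔ x * aa 0 ∈ E := by
      intro x
      show ¬ (x ∈ D.1 ↔ x ∈ D'.1) ↔ ¬ (x * aa 0 ∈ D.1 ↔ x * aa 0 ∈ D'.1)
      have := h3 x
      tauto
    have hE1 : (1 : KuroshGroup) ∉ E := fun h => h h2'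
    have hEx : ∀ x, x ∉ E := by
      intro x hx
      apply hE1
      rw [inv_trivial E hE hE0 x 1, one_mul]
      exact hx
    apply Subtype.ext
    ext x
    by_contra h5
    exact hEx x h5
  exact hF.countable

theorem metrizable_of_countable (G : Type) [Group G] (h : Countable (AlmostInvariant G)) :
    MetrizablyEnded G := by
  have hemb : Topology.IsEmbedding (fun χ : Ends G => (χ.1 : AlmostInvariant G → Bool)) := by
    refine ⟨⟨rfl⟩, ?_⟩
    intro χ χ' hχ
    exact Subtype.ext (DFunLike.coe_injective hχ)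
  have : TopologicalSpace.MetrizableSpace (AlmostInvariant G → Bool) := inferInstance
  exact hemb.metrizableSpace

theorem countable_kuroshGroup : Countable KuroshGroup :=
  (PresentedGroup.mk_surjective kuroshRels).countable

end Pool.Agent.H289KG
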