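import Mathlib

namespace Pool.Agent.H289KG

/-- `G` is the free product of the image of `A` and of the infinite cyclic group generated
by `t` (universal property). -/
structure IsFreeExt {A G : Type} [Group A] [Group G] (σ : A →* G) (t : G) : Prop where
  up : ∀ (K : Type) [Group K] (f : A →* K) (k : K), ∃ F : G →* K, F.comp σ = f ∧ F t = k
  gen : Subgroup.closure (Set.range σ ∪ {t}) = ⊤

section

variable {A G : Type} [Group A] [Group G] (σ : A →* G) (t : G) (H : Subgroup G)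

theorem IsFreeExt.induct {σ : A →* G} {t : G} (h : IsFreeExt σ t) {P : G → Prop}
    (hσ : ∀ a, P (σ a)) (ht : P t) (hm : ∀ x y, P x → P y → P (x * y))
    (hi : ∀ x, P x → P x⁻¹) : ∀ g, P g := by
  intro g
  have hg : g ∈ Subgroup.closure (Set.range σ ∪ {t}) := by rw [h.gen]; trivial
  induction hg using Subgroup.closure_induction with
  | mem x hx =>
    rcases hx with ⟨a, rfl⟩ | hx
    · exact hσ a
    · rw [Set.mem_singleton_iff] at hx; subst hx; exact ht
  | one => simpa using hσ 1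
  | mul x y _ _ hx hy => exact hm x y hx hy
  | inv x _ hx => exact hi x hx

def orb : Setoid (G ⧸ H) where
  r x y := ∃ a : A, σ a • x = y
  iseqv := ⟨fun x => ⟨1, by simp⟩,
    fun {x y} ⟨a, h⟩ => ⟨a⁻¹, by rw [← h, map_inv, inv_smul_smul]⟩,
    fun {x y z} ⟨a, h⟩ ⟨b, h'⟩ => ⟨b * a, by rw [map_mul, mul_smul, h, h']⟩⟩

/-- the set of orbits of `A` on `G ⧸ H` -/
abbrev Q := Quotient (orb σ H)

abbrev p (x : G ⧸ H) : Q σ H := Quotient.mk (orb σ H) x

theorem p_smul (a : A) (x : G ⧸ H) : p σ H (σ a • x) = p σ H x :=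
  Quotient.sound (s := orb σ H) ((orb σ H).symm ⟨a, rfl⟩)

theorem p_eq {x y : G ⧸ H} (h : p σ H x = p σ H y) : ∃ a : A, σ a • x = y :=
  Quotient.exact (s := orb σ H) h

/-- base coset -/
abbrev x₀ : G ⧸ H := ((1 : G) : G ⧸ H)

def R : ℕ → Set (Q σ H)
  | 0 => {p σ H (x₀ H)}
  | n + 1 => {q | ∃ x, (p σ H (t • x) = q ∧ p σ H x ∈ R n) ∨ (p σ H x = q ∧ p σ H (t • x) ∈ R n)}

variable {σ t}

theorem R_all (h : IsFreeExt σ t) (q : Q σ H) : ∃ n, q ∈ R σ t H n := by
  have key : ∀ g : G, ∀ x : G ⧸ H, (∃ n, p σ H x ∈ R σ t H n) ↔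
      (∃ n, p σ H (g • x) ∈ R σ t H n) := by
    refine h.induct ?_ ?_ ?_ ?_
    · intro a x
      rw [p_smul]
    · intro x
      constructor
      · rintro ⟨n, hn⟩
        exact ⟨n + 1, x, Or.inl ⟨rfl, hn⟩⟩
      · rintro ⟨n, hn⟩
        exact ⟨n + 1, x, Or.inr ⟨rfl, hn⟩⟩
    · intro x y hx hy z
      rw [hy z, hx (y • z), mul_smul]
    · intro x hx z
      rw [hx (x⁻¹ • z), smul_inv_smul]
  obtain ⟨x, rfl⟩ := Quotient.exists_rep q
  obtain ⟨g, rfl⟩ := QuotientGroup.mk_surjective x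
  have := (key g (x₀ H)).1 ⟨0, rfl⟩
  simpa using this

theorem exists_depth (h : IsFreeExt σ t) : ∃ d : Q σ H → ℕ, ∀ q, q ≠ p σ H (x₀ H) →
    ∃ x, (p σ H (t • x) = q ∧ d (p σ H x) < d q) ∨ (p σ H x = q ∧ d (p σ H (t • x)) < d q) := by
  classical
  refine ⟨fun q => Nat.find (R_all H h q), fun q hq => ?_⟩
  have h1 := Nat.find_spec (R_all H h q)
  obtain ⟨m, hm⟩ : ∃ m, Nat.find (R_all H h q) = m := ⟨_, rfl⟩
  rw [hm] at h1
  cases m with
  | zero => exact absurd h1 hq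
  | succ n =>
    obtain ⟨x, hx | hx⟩ := h1
    · refine ⟨x, Or.inl ⟨hx.1, ?_⟩⟩
      have := Nat.find_min' (R_all H h (p σ H x)) hx.2
      show Nat.find _ < Nat.find _
      omega
    · refine ⟨x, Or.inr ⟨hx.1, ?_⟩⟩
      have := Nat.find_min' (R_all H h (p σ H (t • x))) hx.2
      show Nat.find _ < Nat.find _
      omega

theorem exists_tree (h : IsFreeExt σ t) :
    ∃ (o : Q σ H → G ⧸ H) (τ : G ⧸ H → A) (γo : Q σ H → G) (T : Set (G ⧸ H)) (d : Q σ H → ℕ),
      (∀ q, p σ H (o q) = q) ∧ o (p σ H (x₀ H)) = x₀ H ∧ γo (p σ H (x₀ H)) = 1 ∧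
      (∀ x, σ (τ x) • o (p σ H x) = x) ∧ (∀ q, τ (o q) = 1) ∧
      (∀ q, q = p σ H (x₀ H) ∨
        (∃ y ∈ T, t • y = o q ∧ d (p σ H y) < d q ∧ γo q = t * (σ (τ y) * γo (p σ H y))) ∨
        (o q ∈ T ∧ d (p σ H (t • o q)) < d q ∧
          γo q = t⁻¹ * (σ (τ (t • o q)) * γo (p σ H (t • o q))))) ∧
      (∀ x ∈ T, σ (τ (t • x)) * γo (p σ H (t • x)) = t * (σ (τ x) * γo (p σ H x))) := by
  classical
  obtain ⟨d, hd⟩ := exists_depth H h
  set q₀ : Q σ H := p σ H (x₀ H) with hq0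
  have hd' : ∀ q, ∃ x, q ≠ q₀ → (p σ H (t • x) = q ∧ d (p σ H x) < d q) ∨
      (p σ H x = q ∧ d (p σ H (t • x)) < d q) := by
    intro q
    by_cases hq : q = q₀
    · exact ⟨x₀ H, fun h => absurd hq h⟩
    · obtain ⟨x, hx⟩ := hd q hq
      exact ⟨x, fun _ => hx⟩
  choose e he using hd'
  let C : Q σ H → Prop := fun q => p σ H (t • e q) = q ∧ d (p σ H (e q)) < d q
  have hC : ∀ q, q ≠ q₀ → ¬ C q → p σ H (e q) = q ∧ d (p σ H (t • e q)) < d q := by
    intro q h1 h2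
    rcases he q h1 with h3 | h3
    · exact absurd h3 h2
    · exact h3
  let o : Q σ H → G ⧸ H := fun q => if q = q₀ then x₀ H else if C q then t • e q else e q
  have ho : ∀ q, p σ H (o q) = q := by
    intro q
    by_cases h1 : q = q₀
    · simp only [o, if_pos h1]; exact h1.symm
    · by_cases h2 : C q
      · simp only [o, if_neg h1, if_pos h2]; exact h2.1
      · simp only [o, if_neg h1, if_neg h2]; exact (hC q h1 h2).1
  have hτ' : ∀ x : G ⧸ H, ∃ a : A, σ a • o (p σ H x) = x := fun x => p_eq σ H (ho (p σ H x))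
  choose τ' hτ' using hτ'
  let τ : G ⧸ H → A := fun x => if x = o (p σ H x) then 1 else τ' x
  have hτ : ∀ x, σ (τ x) • o (p σ H x) = x := by
    intro x
    by_cases h1 : x = o (p σ H x)
    · simp only [τ, if_pos h1, map_one, one_smul]; exact h1.symm
    · simp only [τ, if_neg h1]; exact hτ' x
  have hτo : ∀ q, τ (o q) = 1 := by
    intro q
    have : o q = o (p σ H (o q)) := by rw [ho]
    simp only [τ, if_pos this]
  let body : (q : Q σ H) → ((q' : Q σ H) → d q' < d q → G) → G := fun q ih =>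
    if h0 : q = q₀ then 1 else
      if h1 : C q then t * (σ (τ (e q)) * ih (p σ H (e q)) h1.2)
      else t⁻¹ * (σ (τ (t • e q)) * ih (p σ H (t • e q)) (hC q h0 h1).2)
  have wf : WellFounded (fun q' q : Q σ H => d q' < d q) := InvImage.wf d Nat.lt_wfRel.wf
  let γo : Q σ H → G := wf.fix body
  have hγ : ∀ q, γo q = body q (fun y _ => γo y) := fun q => wf.fix_eq body q
  have hγ0 : γo q₀ = 1 := by rw [hγ]; simp [body]
  have hγ1 : ∀ q, q ≠ q₀ → C q → γo q = t * (σ (τ (e q)) * γo (p σ H (e q))) := by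
    intro q h0 h1
    rw [hγ]; simp only [body, dif_neg h0, dif_pos h1]
  have hγ2 : ∀ q, q ≠ q₀ → ¬ C q → γo q = t⁻¹ * (σ (τ (t • e q)) * γo (p σ H (t • e q))) := by
    intro q h0 h1
    rw [hγ]; simp only [body, dif_neg h0, dif_neg h1]
  have ho1 : ∀ q, q ≠ q₀ → C q → o q = t • e q := by
    intro q h0 h1
    simp only [o, if_neg h0, if_pos h1]
  have ho2 : ∀ q, q ≠ q₀ → ¬ C q → o q = e q := by
    intro q h0 h1
    simp only [o, if_neg h0, if_neg h1]
  refine ⟨o, τ, γo, {x | ∃ q, q ≠ q₀ ∧ x = e q}, d, ho, by simp [o], hγ0, hτ, hτo, ?_, ?_⟩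
  · intro q
    by_cases h0 : q = q₀
    · exact Or.inl h0
    · right
      by_cases h1 : C q
      · left
        exact ⟨e q, ⟨q, h0, rfl⟩, (ho1 q h0 h1).symm, h1.2, hγ1 q h0 h1⟩
      · right
        have h2 := ho2 q h0 h1
        refine ⟨⟨q, h0, h2⟩, ?_, ?_⟩
        · rw [h2]; exact (hC q h0 h1).2
        · rw [h2]; exact hγ2 q h0 h1
  · rintro x ⟨q, h0, rfl⟩
    by_cases h1 : C q
    · have h2 : p σ H (t • e q) = q := h1.1
      have h3 : τ (t • e q) = 1 := by rw [← ho1 q h0 h1]; exact hτo q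
      rw [h2, h3, map_one, one_mul]
      exact hγ1 q h0 h1
    · have h2 : p σ H (e q) = q := (hC q h0 h1).1
      have h3 : τ (e q) = 1 := by rw [← ho2 q h0 h1]; exact hτo q
      rw [h2, h3, map_one, one_mul, hγ2 q h0 h1, mul_inv_cancel_left]

end

end Pool.Agent.H289KG
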